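import Pool.Agent.X261.SE.Comp

/-!
The L-functions of almost all prime twists of the Jacobians of the curves `y ^ N = f(x) - t`, `N` a
power of a prime `ℓ` and `f` a composition of polynomials `x ^ r + c`, over the towers of the fields
`k'(t ^ (1 / ℓ ^ b))`.
-/

set_option autoImplicit false

open Polynomial

namespace Pool.Agent.Results.MP_60d5ce_nt.AlmostAllCompositionTwists

/-- The closed points of the affine line over the field `F`: monic irreducible polynomials. -/
abbrev ClosedPt (F : Type) [Field F] : Type := {P : F[X] // P.Monic ∧ Irreducible P}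

/-- The Euler factor at a point of degree `n` with the residue field `E`, where the function has
the value `c`: the product of `1 - T ^ (n deg S)` over the monic irreducible factors `S` of
`Y ^ N - c`, divided by `1 - T ^ n`. -/
noncomputable def localFactor {E : Type} [Field E] (N : ℕ) (c : E) (n : ℕ) : PowerSeries ℤ :=
  (∏ᶠ (S : ClosedPt E) (_ : S.1 ∣ X ^ N - C c), (1 - PowerSeries.X ^ (n * S.1.natDegree))) *
    PowerSeries.mk fun m => if n ∣ m then 1 else 0

/-- The Euler product: its coefficient of index `n` is that of the product of the factors of degree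
at most `n`. -/
noncomputable def eulerProduct {ι : Type} (d : ι → ℕ) (f : ι → PowerSeries ℤ) : PowerSeries ℤ :=
  PowerSeries.mk fun n => PowerSeries.coeff n (∏ᶠ (i : ι) (_ : d i ≤ n), f i)

section defs

variable {k : Type} [Field k]

/-- The residue field of a closed point of the line. -/
def Res (P : ClosedPt k) : Type := AdjoinRoot P.1

noncomputable instance resField (P : ClosedPt k) : Field (Res P) :=
  @AdjoinRoot.instField k _ P.1 ⟨P.2.2⟩

/-- The value at a closed point of a polynomial. -/
noncomputable def value (P : ClosedPt k) (g : k[X]) : Res P := AdjoinRoot.mk P.1 g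

/-- The inclusion of the constants in the residue field. -/
noncomputable def constants (P : ClosedPt k) : k →+* Res P := AdjoinRoot.of P.1

variable (k) in
/-- The closed points of the `(x, u)`-plane: a closed point of the `x`-line, and a closed point of
the `u`-line over its residue field. -/
structure PlanePt : Type where
  base : ClosedPt k
  point : ClosedPt (Res base)

/-- The degree of a closed point of the plane. -/
noncomputable def PlanePt.deg (z : PlanePt k) : ℕ := z.base.1.natDegree * z.point.1.natDegree

/-- The value of `D(u ^ M) (f(x) - u ^ M)` at a closed point of the plane. -/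
noncomputable def PlanePt.branch (M : ℕ) (f D : k[X]) (z : PlanePt k) : Res z.point :=
  value z.point
    ((D.comp (X ^ M)).map (constants z.base) * (C (value z.base f) - X ^ M))

/-- The `L`-function in the variable `T = q ^ (-s)` of the Jacobian of the curve
`y ^ N = D(u ^ M) (f(x) - u ^ M)` over `k(u)`: the product of the factors of the closed points of
the plane. -/
noncomputable def Lfun (N M : ℕ) (f D : k[X]) : PowerSeries ℤ :=
  eulerProduct (fun z : PlanePt k => z.deg) (fun z => localFactor N (z.branch M f D) z.deg)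

/-- `L(T) = (1 - q T) ^ m G(T)` with an integral polynomial `G`: the function vanishes to order at
least `m` at `s = 1`. -/
def VanishesTo (N M : ℕ) (f D : k[X]) (m : ℕ) : Prop :=
  ∃ G : ℤ[X], Lfun N M f D =
    (((1 - C (Nat.card k : ℤ) * X) ^ m * G : ℤ[X]) : PowerSeries ℤ)

/-- The composition `f = (x ^ r₁ + c₁) ∘ (x ^ r₂ + c₂) ∘ ... ∘ (x ^ rₘ + cₘ)` for the list of the pairs
`(rᵢ, cᵢ)`. -/
noncomputable def composite : List (ℕ × k) → k[X]
  | [] => X
  | (r, c) :: s => (X ^ r + C c).comp (composite s)

/-- The list of the pairs `(rᵢ, bᵢ)`, where the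
`bᵢ = (x ^ r₁ + c₁) ∘ ... ∘ (x ^ rᵢ₋₁ + cᵢ₋₁) (cᵢ)` are the critical values of the composition. -/
noncomputable def criticalValues : List (ℕ × k) → List (ℕ × k)
  | [] => []
  | (r, c) :: s => (r, c) :: (criticalValues s).map fun x => (x.1, x.2 ^ r + c)

/-- The value `P(bᵢ)` is not an `rᵢ`-th power in `k`, for all critical values `bᵢ`. -/
def IsGood (s : List (ℕ × k)) (P : k[X]) : Prop :=
  ∀ x ∈ criticalValues s, ∀ v : k, P.eval x.2 ≠ v ^ x.1

/-- The good primes of degree `N`. -/
def goodPrimes (s : List (ℕ × k)) (N : ℕ) : Set (ClosedPt k) :=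
  {P | P.1.natDegree = N ∧ IsGood s P.1}

variable (k) in
/-- The primes of degree `N`. -/
def allPrimes (N : ℕ) : Set (ClosedPt k) := {P | P.1.natDegree = N}

/-- The numbers `rᵢ` are odd primes dividing `q - 1`, and different from `ℓ`. -/
def IsAdmissible (ℓ : ℕ) (s : List (ℕ × k)) : Prop :=
  ∀ x ∈ s, x.1.Prime ∧ Odd x.1 ∧ x.1 ∣ Nat.card k - 1 ∧ x.1 ≠ ℓ

/-- The prime factors of `D` are good and have multiplicities prime to `ℓ`, and `D(0)` is not
zero. -/
structure IsTwist (ℓ : ℕ) (s : List (ℕ × k)) (D : k[X]) : Prop where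
  eval_zero : D.eval 0 ≠ 0
  good : ∀ P : k[X], P.Monic → Irreducible P → P ∣ D → IsGood s P
  multiplicity : ∀ P : k[X], P.Monic → Irreducible P → P ∣ D → ¬ ℓ ∣ multiplicity P D

theorem composite_eq (s : List (ℕ × k)) : composite s = Pool.Agent.X261.SE.composite s := by
  induction s with
  | nil => rfl
  | cons x s ih =>
    obtain ⟨r, c⟩ := x
    show (X ^ r + C c).comp (composite s) = (X ^ r + C c).comp (Pool.Agent.X261.SE.composite s)
    rw [ih]

theorem criticalValues_eq (s : List (ℕ × k)) :
    criticalValues s = Pool.Agent.X261.SE.crit s := by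
  induction s with
  | nil => rfl
  | cons x s ih =>
    obtain ⟨r, c⟩ := x
    show (r, c) :: (criticalValues s).map (fun x => (x.1, x.2 ^ r + c)) =
      (r, c) :: (Pool.Agent.X261.SE.crit s).map (fun x => (x.1, x.2 ^ r + c))
    rw [ih]

theorem isGood_iff (s : List (ℕ × k)) (P : k[X]) : IsGood s P ↔ Pool.Agent.X261.SE.Good s P := by
  unfold IsGood Pool.Agent.X261.SE.Good
  rw [criticalValues_eq]

/-- the equivalence of the two descriptions of the points of the plane -/
noncomputable def planeEquiv :
    (Σ R : Pool.Agent.W313.Hyp.MI k,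
      Pool.Agent.W313.Hyp.MI (Pool.Agent.TH943.HJ.RF R)) ≃ PlanePt k where
  toFun z := ⟨z.1, z.2⟩
  invFun z := ⟨z.base, z.point⟩
  left_inv _ := rfl
  right_inv _ := rfl

theorem localFactor_eq {E : Type} [Field E] [Finite E] {N : ℕ} (hN : 0 < N) (c : E) (n : ℕ) :
    localFactor N c n = Pool.Agent.X261.SE.lf N c n := by
  unfold localFactor Pool.Agent.X261.SE.lf Pool.Agent.X261.SE.geo
  congr 1
  rw [← finprod_mem_coe_finset]
  refine finprod_congr fun S => finprod_congr_Prop ?_ fun _ => rfl
  rw [Finset.mem_coe, Pool.Agent.W313.Hyp.mem_facs (monic_X_pow_sub_C c hN.ne').ne_zero]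

theorem Lfun_eq [Finite k] {N : ℕ} (hN : 0 < N) (M : ℕ) (f D : k[X]) :
    Lfun N M f D = Pool.Agent.X261.SE.LF N M f D := by
  unfold Lfun Pool.Agent.X261.SE.LF eulerProduct Pool.Agent.W343.BSD.eulerProd
  ext n
  rw [PowerSeries.coeff_mk, PowerSeries.coeff_mk]
  congr 1
  rw [← finprod_comp_equiv planeEquiv]
  refine finprod_congr fun z => finprod_congr fun _ => ?_
  have h1 := Pool.Agent.TH943.HJ.finRF z.1
  have h2 := Pool.Agent.TH943.HJ.finRF z.2
  exact @localFactor_eq (Res (planeEquiv z).point) _ h2 N hN _ _

end defs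

/-- **The Birch and Swinnerton-Dyer conjecture for almost all prime twists.**

Let `ℓ` be a prime, `k` a finite field with `q` elements, `ℓ ∣ q - 1`, let `r₁, ..., rₘ` be odd primes
dividing `q - 1` and different from `ℓ` (for instance all equal), `c₁, ..., cₘ` in `k`, and
`f = (x ^ r₁ + c₁) ∘ ... ∘ (x ^ rₘ + cₘ)`, of degree `n = r₁ ⋯ rₘ`. For `N = ℓ ^ a` and a polynomial `D`
whose prime factors have multiplicities prime to `ℓ` let `J_D` be the Jacobian, of dimension
`(N - 1) (n - 1) / 2`, of the curve `y ^ N = D(t) (f(x) - t)` over `k(t)`.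

(1) Call a prime `P` of `k[t]` good if `P(bᵢ)` is not an `rᵢ`-th power in `k` for all critical values
`bᵢ` of `f`. The number of the good primes of degree `d` is at least
`(q ^ d (1 - ∑ 1 / rᵢ) - ∑ q ^ e - m) / d`, where `e` runs through the proper divisors of `d`, and the
number of all primes of degree `d` is at most `q ^ d / d`. So the lower density of the good primes is
at least `1 - ∑ 1 / rᵢ`, which is close to one if the `rᵢ` are large.

(2) Let all the prime factors of `D` be good, `D(0) ≠ 0`; for instance `D = P` is a good prime. Then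
for all `N = ℓ ^ a` and all finite extensions `k'` of `k` of degree prime to `n` the `L`-function of
`J_D` over `k'(t)` does not vanish at `s = 1`. If the critical values `bᵢ` themselves are not `rᵢ`-th
powers in `k` then the same holds over `k'(t ^ (1 / ℓ ^ b))` for all `b`. By Tate's inequality and the
theorem of Kato and Trihan `J_D` has rank zero over these fields and the full Birch and
Swinnerton-Dyer conjecture holds.

The `L`-function over `k'(u)`, `u ^ M = t`, `M = ℓ ^ b`, is `Lfun`: for a finite place with `D ≠ 0` the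
affine surface `y ^ N = D(u ^ M) (f(x) - u ^ M)` is regular along the fibre (if `b > 0` then `f` is
irreducible), it has the smooth section `x = ∞`, so that the inertia invariants of `J_D` are the
cohomology of the irreducible fibre; at the zeros of `D` the polynomial `f(x) - t` has good reduction
(`P(f(x))` is irreducible for the good primes `P`), `J_D` is a twist of an abelian variety with good
reduction by the character of order exactly `N` of the group of the automorphisms `y ↦ ζ y`, and there
are no invariants; at infinity the inertia characters of the tame part are products of a nontrivial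
character of order prime to `ℓ` and of a character of `ℓ`-power order, and there are no invariants. -/
theorem result (ℓ : ℕ) (hℓ : ℓ.Prime) (k : Type) [Field k] [Finite k] (hq : ℓ ∣ Nat.card k - 1)
    (s : List (ℕ × k)) (hs : IsAdmissible ℓ s) :
    (∀ d : ℕ, 0 < d →
      (d : ℚ) * (allPrimes k d).ncard ≤ (Nat.card k : ℚ) ^ d ∧
      (Nat.card k : ℚ) ^ d * (1 - (s.map fun x => (1 : ℚ) / x.1).sum) -
        ∑ e ∈ d.properDivisors, (Nat.card k : ℚ) ^ e - s.length ≤
        (d : ℚ) * (goodPrimes s d).ncard) ∧
    ∀ D : k[X], IsTwist ℓ s D → ∀ (k' : Type) [Field k'] [Finite k'] [Algebra k k'],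
      (Module.finrank k k').Coprime (composite s).natDegree → ∀ a b : ℕ, b = 0 ∨ IsGood s X →
      ¬ VanishesTo (ℓ ^ a) (ℓ ^ b) ((composite s).map (algebraMap k k'))
        (D.map (algebraMap k k')) 1 := by
  have hF : Fact ℓ.Prime := ⟨hℓ⟩
  refine ⟨fun d hd => ⟨?_, ?_⟩, ?_⟩
  · classical
    obtain ⟨p, hp⟩ := CharP.exists k
    have : Fact (Nat.Prime p) := ⟨CharP.char_is_prime k p⟩
    have : NeZero d := ⟨hd.ne'⟩
    let L := FiniteField.Extension k p d
    have hfin : Module.finrank k L = d := FiniteField.finrank_extension k p d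
    have hcard : Nat.card L = Nat.card k ^ d := FiniteField.natCard_extension k p d
    have hc := Pool.Agent.TH943.PT.count hfin (fun _ => True)
    have h1 : ({u : L | (minpoly k u).natDegree = d ∧ True} : Set L).ncard ≤ Nat.card k ^ d := by
      rw [← hcard]
      exact Set.ncard_le_card _
    have h2 : allPrimes k d = {P : {P : k[X] // P.Monic ∧ Irreducible P} |
        P.1.natDegree = d ∧ True} := by
      ext P
      exact ⟨fun h => ⟨h, trivial⟩, fun h => h.1⟩
    rw [← hc, ← h2] at h1
    exact_mod_cast h1
  · have h1 := Pool.Agent.X261.SE.count_good s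
      (fun x hx => ⟨(hs x hx).1, (hs x hx).2.1, (hs x hx).2.2.1⟩) hd
    have h2 : goodPrimes s d = {P : {P : k[X] // P.Monic ∧ Irreducible P} |
        P.1.natDegree = d ∧ Pool.Agent.X261.SE.Good s P.1} := by
      ext P
      exact and_congr_right fun _ => isGood_iff s P.1
    rw [h2]
    exact h1
  · intro D hD k' _ _ _ hr a b hb
    rintro ⟨G, hG⟩
    have := Module.Finite.of_finite (R := k) (M := k')
    rw [Lfun_eq (pow_pos hℓ.pos a), composite_eq] at hG
    rw [composite_eq] at hr
    set f := Pool.Agent.X261.SE.composite s with hf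
    have hpr : ∀ x ∈ s, x.1.Prime ∧ Odd x.1 := fun x hx => ⟨(hs x hx).1, (hs x hx).2.1⟩
    have hdeg : ¬ ℓ ∣ f.natDegree := by
      rw [hf, Pool.Agent.X261.SE.natDegree_composite]
      intro h1
      obtain ⟨r, hr1, hr2⟩ := (Nat.Prime.prime hℓ).dvd_prod_iff.1 h1
      obtain ⟨x, hx, rfl⟩ := List.mem_map.1 hr1
      exact (hs x hx).2.2.2 ((Nat.prime_dvd_prime_iff_eq hℓ (hs x hx).1).1 hr2).symm
    have hn : 0 < f.natDegree := Nat.pos_of_ne_zero fun h0 => hdeg (h0 ▸ dvd_zero ℓ)
    have hD0 : D ≠ 0 := by
      rintro rfl
      exact hD.eval_zero eval_zero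
    have hq' : ℓ ∣ Nat.card k' - 1 := by
      rw [Module.natCard_eq_pow_finrank (K := k) (V := k')]
      exact hq.trans (by
        have := Nat.sub_dvd_pow_sub_pow (Nat.card k) 1 (Module.finrank k k')
        rwa [one_pow] at this)
    have hD' : D.map (algebraMap k k') ≠ 0 := (Polynomial.map_ne_zero_iff
      (algebraMap k k').injective).2 hD0
    have hD0' : (D.map (algebraMap k k')).eval 0 ≠ 0 := by
      have h0 := Polynomial.eval_map_apply (p := D) (algebraMap k k') (0 : k)
      rw [map_zero] at h0
      rw [h0]
      exact (_root_.map_ne_zero (algebraMap k k')).2 hD.eval_zero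
    have h1 := Pool.Agent.X261.SE.order_int hq' a b (by rw [natDegree_map]; exact hn) hD' hD0' hG
    have hfi : ℓ ^ b = 1 ∨ Irreducible (f.map (algebraMap k k')) := by
      rcases hb with rfl | hb
      · exact Or.inl (pow_zero ℓ)
      · right
        have h3 := Pool.Agent.X261.SE.irr_composite s hpr ⟨X, monic_X, irreducible_X⟩
          ((isGood_iff s X).1 hb)
        have h2 := Pool.Agent.X261.SE.irr_map (k' := k') (P := X) hn irreducible_X h3 hr (P' := X)
          irreducible_X (by rw [Polynomial.map_X])
        rwa [X_comp] at h2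
    rw [Pool.Agent.X261.SE.bnd_inert' (ℓ := ℓ) _ _ hD' (by rw [natDegree_map]; exact hdeg) hfi
      (fun P' hP' hd => ?_)] at h1
    · norm_num at h1
    · classical
      have h3 : ∃ P : k[X], P.Monic ∧ Irreducible P ∧ P ∣ D ∧ P' ∣ P.map (algebraMap k k') := by
        have hd0 : P' ∣ (C D.leadingCoeff * (UniqueFactorizationMonoid.normalizedFactors D).prod).map
            (algebraMap k k') := by
          rwa [leadingCoeff_mul_prod_normalizedFactors]
        rw [Polynomial.map_mul, Polynomial.map_C] at hd0
        have hu : IsUnit (C ((algebraMap k k') D.leadingCoeff)) := isUnit_C.2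
          (isUnit_iff_ne_zero.2 ((_root_.map_ne_zero _).2 (leadingCoeff_ne_zero.2 hD0)))
        rw [hu.dvd_mul_left, ← coe_mapRingHom, map_multiset_prod] at hd0
        obtain ⟨P, hP, hQ'⟩ := Prime.exists_mem_multiset_map_dvd hP'.prime hd0
        obtain ⟨h4, h5, h6⟩ := (Polynomial.mem_normalizedFactors_iff hD0).1 hP
        exact ⟨P, h5, h4, h6, hQ'⟩
      obtain ⟨P, hm, hP, hPD, hPP⟩ := h3
      exact Pool.Agent.X261.SE.irr_map hn hP (Pool.Agent.X261.SE.irr_composite s hpr ⟨P, hm, hP⟩
        ((isGood_iff s P).1 (hD.good P hm hP hPD))) hr hP' hPP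

end Pool.Agent.Results.MP_60d5ce_nt.AlmostAllCompositionTwists
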