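import Pool.Agent.X261.SE.Fin

/-!
The L-functions of the twists of the Jacobians of the curves `y ^ N = f(x) - t`, `N` a power of a
prime `ℓ`, over the towers of the fields `k'(t ^ (1 / ℓ ^ b))`.
-/

set_option autoImplicit false

open Polynomial

namespace Pool.Agent.Results.MP_60d5ce_nt.CompositionTowers

/-- The closed points of the affine line over the field `F`: monic irreducible polynomials. -/
abbrev ClosedPt (F : Type) [Field F] : Type := {P : F[X] // P.Monic ∧ Irreducible P}

/-- The Euler factor at a point of degree `n` with the residue field `E`, where the function has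
the value `c`: the product of `1 - T ^ (n deg S)` over the monic irreducible factors `S` of
`Y ^ N - c`, divided by `1 - T ^ n`. -/
noncomputable def localFactor {E : Type} [Field E] (N : ℕ) (c : E) (n : ℕ) : PowerSeries ℤ :=
  (∏ᶠ (S : ClosedPt E) (_ : S.1 ∣ X ^ N - C c), (1 - PowerSeries.X ^ (n * S.1.natDegree))) *
    PowerSeries.mk fun m => if n ∣ m then 1 else 0

/-- The Euler product: its coefficient of index `n` is that of the product of the factors of degree
at most `n`. -/
noncomputable def eulerProduct {ι : Type} (d : ι → ℕ) (f : ι → PowerSeries ℤ) : PowerSeries ℤ :=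
  PowerSeries.mk fun n => PowerSeries.coeff n (∏ᶠ (i : ι) (_ : d i ≤ n), f i)

section defs

variable {k : Type} [Field k]

/-- The residue field of a closed point of the line. -/
def Res (P : ClosedPt k) : Type := AdjoinRoot P.1

noncomputable instance resField (P : ClosedPt k) : Field (Res P) :=
  @AdjoinRoot.instField k _ P.1 ⟨P.2.2⟩

/-- The value at a closed point of a polynomial. -/
noncomputable def value (P : ClosedPt k) (g : k[X]) : Res P := AdjoinRoot.mk P.1 g

/-- The inclusion of the constants in the residue field. -/
noncomputable def constants (P : ClosedPt k) : k →+* Res P := AdjoinRoot.of P.1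

variable (k) in
/-- The closed points of the `(x, u)`-plane: a closed point of the `x`-line, and a closed point of
the `u`-line over its residue field. -/
structure PlanePt : Type where
  base : ClosedPt k
  point : ClosedPt (Res base)

/-- The degree of a closed point of the plane. -/
noncomputable def PlanePt.deg (z : PlanePt k) : ℕ := z.base.1.natDegree * z.point.1.natDegree

/-- The value of `D(u ^ M) (f(x) - u ^ M)` at a closed point of the plane. -/
noncomputable def PlanePt.branch (M : ℕ) (f D : k[X]) (z : PlanePt k) : Res z.point :=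
  value z.point
    ((D.comp (X ^ M)).map (constants z.base) * (C (value z.base f) - X ^ M))

/-- The `L`-function in the variable `T = q ^ (-s)` of the Jacobian of the curve
`y ^ N = D(u ^ M) (f(x) - u ^ M)` over `k(u)`: the product of the factors of the closed points of
the plane. -/
noncomputable def Lfun (N M : ℕ) (f D : k[X]) : PowerSeries ℤ :=
  eulerProduct (fun z : PlanePt k => z.deg) (fun z => localFactor N (z.branch M f D) z.deg)

/-- `L(T) = (1 - q T) ^ m G(T)` with an integral polynomial `G`: the function vanishes to order at
least `m` at `s = 1`. -/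
def VanishesTo (N M : ℕ) (f D : k[X]) (m : ℕ) : Prop :=
  ∃ G : ℤ[X], Lfun N M f D =
    (((1 - C (Nat.card k : ℤ) * X) ^ m * G : ℤ[X]) : PowerSeries ℤ)

open Classical in
/-- The monic irreducible factors of a polynomial. -/
noncomputable def primes (g : k[X]) : Finset k[X] :=
  (UniqueFactorizationMonoid.normalizedFactors g).toFinset

/-- The greatest power of `ℓ` dividing `n`. -/
def lPart (ℓ n : ℕ) : ℤ := (ℓ : ℤ) ^ padicValNat ℓ n

/-- The bound: `N - 1` times the sum of `(M - 1) (∑ lPart (deg R) - 1)`, over the prime factors `R`
of `f`, and of `M (∑ lPart (deg R) - lPart (deg P))`, over the prime factors `P` of `D` and `R` of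
`P(f(x))`. -/
noncomputable def bound (ℓ N M : ℕ) (f D : k[X]) : ℤ :=
  ((N : ℤ) - 1) * (((M : ℤ) - 1) * (∑ R ∈ primes f, lPart ℓ R.natDegree - 1) +
    M * ∑ P ∈ primes D, (∑ R ∈ primes (P.comp f), lPart ℓ R.natDegree - lPart ℓ P.natDegree))

/-- The degree of `f` is prime to `ℓ`, the polynomials `f` and `P(f(x))` are squarefree for the prime
factors `P` of `D`, the multiplicities of which are prime to `ℓ`, and `D(0)` is not zero. -/
structure IsAdmissible (ℓ : ℕ) (f D : k[X]) : Prop where
  degree : ¬ ℓ ∣ f.natDegree
  squarefree : Squarefree f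
  eval_zero : D.eval 0 ≠ 0
  multiplicity : ∀ P : k[X], Irreducible P → P ∣ D → ¬ ℓ ∣ multiplicity P D
  comp_squarefree : ∀ P : k[X], Irreducible P → P ∣ D → Squarefree (P.comp f)

/-- The polynomials `f` and `P(f(x))` are irreducible for the prime factors `P` of `D`. -/
structure IsInert (f D : k[X]) : Prop where
  irreducible : Irreducible f
  comp_irreducible : ∀ P : k[X], Irreducible P → P ∣ D → Irreducible (P.comp f)

/-- the equivalence of the two descriptions of the points of the plane -/
noncomputable def planeEquiv :
    (Σ R : Pool.Agent.W313.Hyp.MI k,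
      Pool.Agent.W313.Hyp.MI (Pool.Agent.TH943.HJ.RF R)) ≃ PlanePt k where
  toFun z := ⟨z.1, z.2⟩
  invFun z := ⟨z.base, z.point⟩
  left_inv _ := rfl
  right_inv _ := rfl

theorem localFactor_eq {E : Type} [Field E] [Finite E] {N : ℕ} (hN : 0 < N) (c : E) (n : ℕ) :
    localFactor N c n = Pool.Agent.X261.SE.lf N c n := by
  unfold localFactor Pool.Agent.X261.SE.lf Pool.Agent.X261.SE.geo
  congr 1
  rw [← finprod_mem_coe_finset]
  refine finprod_congr fun S => finprod_congr_Prop ?_ fun _ => rfl
  rw [Finset.mem_coe, Pool.Agent.W313.Hyp.mem_facs (monic_X_pow_sub_C c hN.ne').ne_zero]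

theorem Lfun_eq [Finite k] {N : ℕ} (hN : 0 < N) (M : ℕ) (f D : k[X]) :
    Lfun N M f D = Pool.Agent.X261.SE.LF N M f D := by
  unfold Lfun Pool.Agent.X261.SE.LF eulerProduct Pool.Agent.W343.BSD.eulerProd
  ext n
  rw [PowerSeries.coeff_mk, PowerSeries.coeff_mk]
  congr 1
  rw [← finprod_comp_equiv planeEquiv]
  refine finprod_congr fun z => finprod_congr fun _ => ?_
  have h1 := Pool.Agent.TH943.HJ.finRF z.1
  have h2 := Pool.Agent.TH943.HJ.finRF z.2
  exact @localFactor_eq (Res (planeEquiv z).point) _ h2 N hN _ _

end defs

/-- **The Birch and Swinnerton-Dyer conjecture in towers for twists of the Jacobians of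
`y ^ N = f(x) - t`.**

Let `ℓ` be a prime, `k` a finite field with `q` elements, `ℓ ∣ q - 1`, let `f` and `D` be polynomials
over `k`, `n` the degree of `f`, and suppose that `IsAdmissible ℓ f D` holds. For `N = ℓ ^ a`,
`M = ℓ ^ b` let `J` be the Jacobian, of dimension `(N - 1) (n - 1) / 2`, of the curve
`y ^ N = D(t) (f(x) - t)` over `K_b = k(u)`, `u ^ M = t`. For a finite place with `D ≠ 0` the affine
surface `y ^ N = D(u ^ M) (f(x) - u ^ M)` is regular along the fibre (`f` is squarefree), it has the
smooth section `x = ∞`, so that the inertia invariants of `J` are the cohomology of the irreducible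
fibre, and the factor is the product of the factors of the points of the fibre of the plane. At the
other finite places `f(x) - t` has good reduction, `J` is a twist of an abelian variety with good
reduction by the character of order exactly `N` of the group of the automorphisms `y ↦ ζ y`, and
there are no invariants; at infinity the inertia characters of the tame part are products of a
nontrivial character of order prime to `ℓ` and of a character of `ℓ`-power order, and there are no
invariants. Hence the `L`-function of `J` over `K_b` is `Lfun`, a polynomial in `T`.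

(1) The order of vanishing of `L(J / K_b, s)` at `s = 1` is at most `bound`, and so is the rank of
`J(K_b)`. The bound depends only on the degrees of the prime factors of `f` and of the polynomials
`P(f(x))`, `P ∣ D` prime.

(2) If `f` and all these `P(f(x))` are irreducible, then for all `a`, `b` and all finite extensions
`k'` of `k` of degree prime to `n` the `L`-function of `J` over `k'(t ^ (1 / ℓ ^ b))` does not vanish
at `s = 1`. By Tate's inequality and the theorem of Kato and Trihan `J` has rank zero over all these
fields, and the full Birch and Swinnerton-Dyer conjecture holds for it over all of them. As `n` is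
prime to `ℓ`, the union of these fields contains the tower of the fields
`k(μ_(ℓ ^ b))(t ^ (1 / ℓ ^ b))`. -/
theorem result (ℓ : ℕ) (hℓ : ℓ.Prime) (k : Type) [Field k] [Finite k] (hq : ℓ ∣ Nat.card k - 1)
    (f D : k[X]) (h : IsAdmissible ℓ f D) :
    (∀ a b m : ℕ, VanishesTo (ℓ ^ a) (ℓ ^ b) f D m → (m : ℤ) ≤ bound ℓ (ℓ ^ a) (ℓ ^ b) f D) ∧
    (IsInert f D → ∀ (k' : Type) [Field k'] [Finite k'] [Algebra k k'],
      (Module.finrank k k').Coprime f.natDegree → ∀ a b : ℕ,
      ¬ VanishesTo (ℓ ^ a) (ℓ ^ b) (f.map (algebraMap k k')) (D.map (algebraMap k k')) 1) := by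
  have hF : Fact ℓ.Prime := ⟨hℓ⟩
  have hn : 0 < f.natDegree := Nat.pos_of_ne_zero fun h0 => h.degree (h0 ▸ dvd_zero ℓ)
  have hD : D ≠ 0 := by
    rintro rfl
    exact h.eval_zero eval_zero
  refine ⟨?_, ?_⟩
  · rintro a b m ⟨G, hG⟩
    rw [Lfun_eq (pow_pos hℓ.pos a)] at hG
    exact Pool.Agent.X261.SE.order_int hq a b hn hD h.eval_zero hG
  · intro hI k' _ _ _ hr a b
    rintro ⟨G, hG⟩
    have := Module.Finite.of_finite (R := k) (M := k')
    rw [Lfun_eq (pow_pos hℓ.pos a)] at hG
    have hq' : ℓ ∣ Nat.card k' - 1 := by
      rw [Module.natCard_eq_pow_finrank (K := k) (V := k')]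
      exact hq.trans (by
        have := Nat.sub_dvd_pow_sub_pow (Nat.card k) 1 (Module.finrank k k')
        rwa [one_pow] at this)
    have hD' : D.map (algebraMap k k') ≠ 0 := (Polynomial.map_ne_zero_iff
      (algebraMap k k').injective).2 hD
    have hD0 : (D.map (algebraMap k k')).eval 0 ≠ 0 := by
      have h0 := Polynomial.eval_map_apply (p := D) (algebraMap k k') (0 : k)
      rw [map_zero] at h0
      rw [h0]
      exact (_root_.map_ne_zero (algebraMap k k')).2 h.eval_zero
    have h1 := Pool.Agent.X261.SE.order_int hq' a b (by rw [natDegree_map]; exact hn) hD' hD0 hG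
    have hf' : Irreducible (f.map (algebraMap k k')) := by
      have h2 := Pool.Agent.X261.SE.irr_map (k' := k') (P := X) hn irreducible_X
        (by rw [X_comp]; exact hI.irreducible) hr (P' := X) irreducible_X (by rw [Polynomial.map_X])
      rwa [X_comp] at h2
    rw [Pool.Agent.X261.SE.bnd_inert (ℓ := ℓ) _ _ hD' (by rw [natDegree_map]; exact h.degree) hf'
      (fun P' hP' hd => ?_)] at h1
    · norm_num at h1
    · have h3 : ∃ P : k[X], Irreducible P ∧ P ∣ D ∧ P' ∣ P.map (algebraMap k k') := by
        have hu : ¬ IsUnit D := by
          intro hu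
          have h4 : IsUnit (D.map (algebraMap k k')) := hu.map (mapRingHom (algebraMap k k'))
          exact hP'.not_isUnit (isUnit_of_dvd_unit hd h4)
        obtain ⟨s, hs1, hs2⟩ := UniqueFactorizationMonoid.exists_prime_factors D hD
        have h5 : P' ∣ (s.prod).map (algebraMap k k') := by
          have h6 := hs2.map (mapRingHom (algebraMap k k'))
          exact hd.trans h6.symm.dvd
        rw [← coe_mapRingHom, map_multiset_prod] at h5
        obtain ⟨P, hP, hQ'⟩ := Prime.exists_mem_multiset_map_dvd hP'.prime h5
        exact ⟨P, (hs1 P hP).irreducible, (Multiset.dvd_prod hP).trans hs2.dvd, hQ'⟩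
      obtain ⟨P, hP, hPD, hPP⟩ := h3
      exact Pool.Agent.X261.SE.irr_map hn hP (hI.comp_irreducible P hP hPD) hr hP' hPP

end Pool.Agent.Results.MP_60d5ce_nt.CompositionTowers
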