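import Pool.Agent.X261.SE.One
import Pool.Agent.TH943.PT.DkC

/-!
The L-functions of the twists of the Jacobians of the curves `y ^ N = f(x) - t`, `N` a power of a
prime `ℓ`, by one third of the primes if `f` is a cubic polynomial, and by almost one half of the
primes if `f` is a Dickson polynomial of large prime degree.
-/

set_option autoImplicit false

open Polynomial

namespace Pool.Agent.Results.MP_60d5ce_nt.CubicPencilTwists

/-- The closed points of the affine line over the field `F`: monic irreducible polynomials. -/
abbrev ClosedPt (F : Type) [Field F] : Type := {P : F[X] // P.Monic ∧ Irreducible P}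

/-- The Euler factor at a point of degree `n` with the residue field `E`, where the function has
the value `c`: the product of `1 - T ^ (n deg S)` over the monic irreducible factors `S` of
`Y ^ N - c`, divided by `1 - T ^ n`. -/
noncomputable def localFactor {E : Type} [Field E] (N : ℕ) (c : E) (n : ℕ) : PowerSeries ℤ :=
  (∏ᶠ (S : ClosedPt E) (_ : S.1 ∣ X ^ N - C c), (1 - PowerSeries.X ^ (n * S.1.natDegree))) *
    PowerSeries.mk fun m => if n ∣ m then 1 else 0

/-- The Euler product: its coefficient of index `n` is that of the product of the factors of degree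
at most `n`. -/
noncomputable def eulerProduct {ι : Type} (d : ι → ℕ) (f : ι → PowerSeries ℤ) : PowerSeries ℤ :=
  PowerSeries.mk fun n => PowerSeries.coeff n (∏ᶠ (i : ι) (_ : d i ≤ n), f i)

section defs

variable {k : Type} [Field k]

/-- The residue field of a closed point of the line. -/
def Res (P : ClosedPt k) : Type := AdjoinRoot P.1

noncomputable instance resField (P : ClosedPt k) : Field (Res P) :=
  @AdjoinRoot.instField k _ P.1 ⟨P.2.2⟩

/-- The value at a closed point of a polynomial. -/
noncomputable def value (P : ClosedPt k) (g : k[X]) : Res P := AdjoinRoot.mk P.1 g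

/-- The inclusion of the constants in the residue field. -/
noncomputable def constants (P : ClosedPt k) : k →+* Res P := AdjoinRoot.of P.1

variable (k) in
/-- The closed points of the `(x, t)`-plane: a closed point of the `x`-line, and a closed point of
the `t`-line over its residue field. -/
structure PlanePt : Type where
  base : ClosedPt k
  point : ClosedPt (Res base)

/-- The degree of a closed point of the plane. -/
noncomputable def PlanePt.deg (z : PlanePt k) : ℕ := z.base.1.natDegree * z.point.1.natDegree

/-- The value of `D(t) (f(x) - t)` at a closed point of the plane. -/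
noncomputable def PlanePt.branch (f D : k[X]) (z : PlanePt k) : Res z.point :=
  value z.point (D.map (constants z.base) * (C (value z.base f) - X))

/-- The `L`-function in the variable `T = q ^ (-s)` of the Jacobian of the curve
`y ^ N = D(t) (f(x) - t)` over `k(t)`: the product of the factors of the closed points of the
plane. -/
noncomputable def Lfun (N : ℕ) (f D : k[X]) : PowerSeries ℤ :=
  eulerProduct (fun z : PlanePt k => z.deg) (fun z => localFactor N (z.branch f D) z.deg)

/-- `L(T) = (1 - q T) ^ m G(T)` with an integral polynomial `G`: the function vanishes to order at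
least `m` at `s = 1`. -/
def VanishesTo (N : ℕ) (f D : k[X]) (m : ℕ) : Prop :=
  ∃ G : ℤ[X], Lfun N f D =
    (((1 - C (Nat.card k : ℤ) * X) ^ m * G : ℤ[X]) : PowerSeries ℤ)

open Classical in
/-- The monic irreducible factors of a polynomial. -/
noncomputable def primes (g : k[X]) : Finset k[X] :=
  (UniqueFactorizationMonoid.normalizedFactors g).toFinset

/-- The greatest power of `ℓ` dividing `n`. -/
def lPart (ℓ n : ℕ) : ℕ := ℓ ^ padicValNat ℓ n

open Classical in
/-- The bound: `(N - 1) (n - 1)`, `n` the degree of `f`, times the sum of the `lPart (deg P)` over the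
prime factors `P` of `D` for which `P(f(x))` is not irreducible. -/
noncomputable def bound (ℓ N : ℕ) (f D : k[X]) : ℕ :=
  (N - 1) * ((f.natDegree - 1) *
    ∑ P ∈ (primes D).filter (fun P => ¬ Irreducible (P.comp f)), lPart ℓ P.natDegree)

/-- The degree of `f` is prime to `ℓ`, `D` is not zero, and for the prime factors `P` of `D` the
polynomial `P(f(x))` is squarefree and the multiplicity of `P` is prime to `ℓ`. -/
structure IsAdmissible (ℓ : ℕ) (f D : k[X]) : Prop where
  degree : ¬ ℓ ∣ f.natDegree
  ne_zero : D ≠ 0
  multiplicity : ∀ P : k[X], Irreducible P → P ∣ D → ¬ ℓ ∣ multiplicity P D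
  squarefree : ∀ P : k[X], Irreducible P → P ∣ D → Squarefree (P.comp f)

/-- The primes `P` of degree `d` for which `P(f(x))` is irreducible. -/
def inertPrimes (f : k[X]) (d : ℕ) : Set (ClosedPt k) :=
  {P | P.1.natDegree = d ∧ Irreducible (P.1.comp f)}

/-- The polynomial `f` is a monic cubic polynomial with two different critical points, in
characteristic at least five. -/
structure IsCubic (f : k[X]) : Prop where
  two : (2 : k) ≠ 0
  three : (3 : k) ≠ 0
  monic : f.Monic
  degree : f.natDegree = 3
  critical : f.coeff 2 ^ 2 ≠ 3 * f.coeff 1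

/-- The polynomial `f` is the Dickson polynomial of degree `r` with the parameter `α ≠ 0`, where
`r` is an odd prime dividing `q ^ 2 - 1`: `f(z + α / z) = z ^ r + (α / z) ^ r`. -/
def IsDickson (r : ℕ) (f : k[X]) : Prop :=
  r.Prime ∧ r ≠ 2 ∧ r ∣ Nat.card k ^ 2 - 1 ∧ ∃ α : k, α ≠ 0 ∧ f = dickson 1 α r

/-- the equivalence of the two descriptions of the points of the plane -/
noncomputable def planeEquiv :
    (Σ R : Pool.Agent.W313.Hyp.MI k,
      Pool.Agent.W313.Hyp.MI (Pool.Agent.TH943.HJ.RF R)) ≃ PlanePt k where
  toFun z := ⟨z.1, z.2⟩
  invFun z := ⟨z.base, z.point⟩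
  left_inv _ := rfl
  right_inv _ := rfl

theorem localFactor_eq {E : Type} [Field E] [Finite E] {N : ℕ} (hN : 0 < N) (c : E) (n : ℕ) :
    localFactor N c n = Pool.Agent.X261.SE.lf N c n := by
  unfold localFactor Pool.Agent.X261.SE.lf Pool.Agent.X261.SE.geo
  congr 1
  rw [← finprod_mem_coe_finset]
  refine finprod_congr fun S => finprod_congr_Prop ?_ fun _ => rfl
  rw [Finset.mem_coe, Pool.Agent.W313.Hyp.mem_facs (monic_X_pow_sub_C c hN.ne').ne_zero]

theorem Lfun_eq [Finite k] {N : ℕ} (hN : 0 < N) (f D : k[X]) :
    Lfun N f D = Pool.Agent.X261.SE.LF N 1 f D := by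
  unfold Lfun Pool.Agent.X261.SE.LF eulerProduct Pool.Agent.W343.BSD.eulerProd
  ext n
  rw [PowerSeries.coeff_mk, PowerSeries.coeff_mk]
  congr 1
  rw [← finprod_comp_equiv planeEquiv]
  refine finprod_congr fun z => finprod_congr fun _ => ?_
  have h1 := Pool.Agent.TH943.HJ.finRF z.1
  have h2 := Pool.Agent.TH943.HJ.finRF z.2
  have h3 : Pool.Agent.X261.SE.gR 1 f D z.1 =
      D.map (algebraMap k (Pool.Agent.TH943.HJ.RF z.1)) * (C (AdjoinRoot.mk z.1.1 f) - X) := by
    unfold Pool.Agent.X261.SE.gR Pool.Agent.X261.SE.cf
    rw [pow_one, pow_one, comp_X]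
  have h4 : (planeEquiv z).branch f D = (AdjoinRoot.mk z.2.1 (Pool.Agent.X261.SE.gR 1 f D z.1) :
      Pool.Agent.TH943.HJ.RF z.2) := by
    rw [h3]
    rfl
  have h5 := @localFactor_eq (Res (planeEquiv z).point) _ h2 N hN ((planeEquiv z).branch f D)
    (planeEquiv z).deg
  refine h5.trans ?_
  rw [h4]
  rfl

end defs

/-- **The Birch and Swinnerton-Dyer conjecture for one third of the prime twists of the Jacobians of
`y ^ N = f(x) - t`, `f` a cubic polynomial, and for almost one half of them if `f` is a Dickson
polynomial of large prime degree.**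

Let `k` be a finite field with `q` elements.

(1) Let `f` be a monic cubic polynomial over `k` with two different critical points, `k` of
characteristic at least five. The number `i` of the primes `P` of degree `d` of `k[t]` for which
`P(f(x))` is irreducible satisfies `|3 d i - q ^ d| ≤ 3 ∑ q ^ e + 1`, the sum over the proper divisors
`e` of `d`: these are one third of all primes.

(2) Let `f` be a Dickson polynomial of odd prime degree `r` dividing `q ^ 2 - 1`. The number `i` of
the primes `P` of degree `d` for which `P(f(x))` is irreducible satisfies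
`(r - 1) (q ^ d - 1) ≤ 2 r (d i + ∑ q ^ e)`: their lower density is at least `(r - 1) / (2 r)`.

(3) Let `ℓ` be a prime dividing `q - 1`, `f` any polynomial of degree `n` prime to `ℓ`, `N = ℓ ^ a`
and `D` a polynomial such that `IsAdmissible` holds, and `J_D` the Jacobian, of dimension
`(N - 1) (n - 1) / 2`, of the curve `y ^ N = D(t) (f(x) - t)` over `k(t)`. Then the order of vanishing
of `L(J_D, s)` at `s = 1` is at most `bound`, which is zero if `P(f(x))` is irreducible for all prime
factors `P` of `D`. In this case the `L`-function of `J_D` over `k'(t)` does not vanish at `s = 1` for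
all finite extensions `k'` of `k` of degree prime to `n`; by Tate's inequality and the theorem of Kato
and Trihan `J_D` has rank zero over these fields and the full Birch and Swinnerton-Dyer conjecture
holds. In particular this is true for one third of the prime twists `D = P` if `f` is a cubic
polynomial and `ℓ ≠ 3` (for `N = 2` they are quadratic twists of elliptic curves which are not
isotrivial), and for a proportion of at least `(r - 1) / (2 r)` of them if `f` is a Dickson polynomial
of degree `r ≠ ℓ` (for `N = 2` the Jacobians have real multiplication by the field of the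
`2 cos(2 π j / r)` over the separable closure).

The `L`-function of `J_D` over `k(t)` is `Lfun`: for a finite place with `D ≠ 0` the affine surface
`y ^ N = D(t) (f(x) - t)` is regular along the fibre, it has the smooth section `x = ∞`, so that the
inertia invariants of `J_D` are the cohomology of the irreducible fibre; at the zeros of `D` the
polynomial `f(x) - t` has good reduction, `J_D` is a twist of an abelian variety with good reduction by
the character of order exactly `N` of the group of the automorphisms `y ↦ ζ y`, and there are no
invariants; at infinity the inertia characters of the tame part are products of a nontrivial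
character of order prime to `ℓ` and of a character of `ℓ`-power order, and there are no
invariants. -/
theorem result (k : Type) [Field k] [Finite k] :
    (∀ f : k[X], IsCubic f → ∀ d : ℕ, 0 < d →
      |3 * ((d : ℤ) * ((inertPrimes f d).ncard : ℤ)) - (Nat.card k : ℤ) ^ d| ≤
        3 * ∑ e ∈ d.properDivisors, (Nat.card k : ℤ) ^ e + 1) ∧
    (∀ (r : ℕ) (f : k[X]), IsDickson r f → ∀ d : ℕ, 0 < d →
      (r - 1) * (Nat.card k ^ d - 1) ≤
        2 * r * (d * (inertPrimes f d).ncard + ∑ e ∈ d.properDivisors, Nat.card k ^ e)) ∧
    (∀ ℓ : ℕ, ℓ.Prime → ℓ ∣ Nat.card k - 1 → ∀ f D : k[X], IsAdmissible ℓ f D →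
      (∀ a m : ℕ, VanishesTo (ℓ ^ a) f D m → m ≤ bound ℓ (ℓ ^ a) f D) ∧
      ((∀ P : k[X], Irreducible P → P ∣ D → Irreducible (P.comp f)) →
        ∀ (k' : Type) [Field k'] [Finite k'] [Algebra k k'],
        (Module.finrank k k').Coprime f.natDegree → ∀ a : ℕ,
        ¬ VanishesTo (ℓ ^ a) (f.map (algebraMap k k')) (D.map (algebraMap k k')) 1)) := by
  refine ⟨?_, ?_, ?_⟩
  · intro f hf d hd
    have h1 := Pool.Agent.TH943.PT.inert_count hf.two hf.three hf.monic hf.degree hf.critical hd
    push_cast at h1
    exact h1
  · rintro r f ⟨hr, h2, hd2, α, hα, rfl⟩ d hd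
    exact Pool.Agent.TH943.PT.dick_inert hr h2 hα hd2 hd
  · intro ℓ hℓ hq f D h
    have hF : Fact ℓ.Prime := ⟨hℓ⟩
    classical
    refine ⟨?_, ?_⟩
    · rintro a m ⟨G, hG⟩
      rw [Lfun_eq (pow_pos hℓ.pos a)] at hG
      have h1 := Pool.Agent.X261.SE.order1 hq a h.degree h.ne_zero hG
      unfold bound lPart
      convert h1 using 3
      rfl
    · intro hI k' _ _ _ hr a
      rintro ⟨G, hG⟩
      have := Module.Finite.of_finite (R := k) (M := k')
      rw [Lfun_eq (pow_pos hℓ.pos a)] at hG
      have hn : 0 < f.natDegree := Nat.pos_of_ne_zero fun h0 => h.degree (h0 ▸ dvd_zero ℓ)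
      have hq' : ℓ ∣ Nat.card k' - 1 := by
        rw [Module.natCard_eq_pow_finrank (K := k) (V := k')]
        exact hq.trans (by
          have := Nat.sub_dvd_pow_sub_pow (Nat.card k) 1 (Module.finrank k k')
          rwa [one_pow] at this)
      have hD' : D.map (algebraMap k k') ≠ 0 := (Polynomial.map_ne_zero_iff
        (algebraMap k k').injective).2 h.ne_zero
      have h1 := Pool.Agent.X261.SE.order1 hq' a (by rw [natDegree_map]; exact h.degree) hD' hG
      rw [Finset.sum_eq_zero, mul_zero, mul_zero] at h1
      · omega
      · intro P' hP'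
        exfalso
        obtain ⟨hP', hcon⟩ := Finset.mem_filter.1 hP'
        obtain ⟨_, hP'i, hP'd⟩ := (Pool.Agent.TH639.SE.mem_primes hD' P').1 hP'
        apply hcon
        obtain ⟨s, hs1, hs2⟩ := UniqueFactorizationMonoid.exists_prime_factors D h.ne_zero
        have h5 : P' ∣ (s.prod).map (algebraMap k k') := by
          have h6 := hs2.map (mapRingHom (algebraMap k k'))
          exact hP'd.trans h6.symm.dvd
        rw [← coe_mapRingHom, map_multiset_prod] at h5
        obtain ⟨P, hP, hQ'⟩ := Prime.exists_mem_multiset_map_dvd hP'i.prime h5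
        have hPi := (hs1 P hP).irreducible
        exact Pool.Agent.X261.SE.irr_map hn hPi (hI P hPi ((Multiset.dvd_prod hP).trans hs2.dvd)) hr
          hP'i hQ'

end Pool.Agent.Results.MP_60d5ce_nt.CubicPencilTwists
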