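import Pool.Agent.H313.CC.Curve

/-!
# The Birch–Swinnerton-Dyer formula for Jacobians in the towers of Kummer extensions

Let `k` be the field with `q` elements, and let `S` be a smooth projective geometrically connected
curve over `k` with the function field `F = k(S)`: the subset of projective space of dimension `M` where
the forms `G i` vanish. Let `J` be the Jacobian of a smooth curve over `F` (or any abelian variety over
`F`), and for a closed point `z` of `S` let `L_z = det (1 - Frob_z T)` on the invariants of inertia in
the first cohomology group of `J`. Let `ℓ` be a prime, `n` prime to `ℓ`, `N = n ℓ ^ a` with `a > 0` a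
divisor of `q - 1`, and let `Φ` be a form whose degree is divisible by `N`. Let `B` be the set of the
closed points of `S` where `Φ` vanishes. We assume that `B` is not empty, that the orders of `Φ` at the
points of `B` are prime to `N`, and that `J` has good (or semistable) reduction at these points. There
are no conditions on the reduction of `J` at the other places, and `J` may have a constant part.

For `v ≠ 0` in `k` let `F_v = F((v ^ n Φ) ^ (1 / N))` be the function field of the curve
`w ^ N = v ^ n Φ` over `S`; the quotient of `Φ` by the `deg Φ`-th power of a linear form is a function on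
`S`, `N` divides `deg Φ`, and so this is a well defined cyclic extension of `F` of degree `N`. It
contains `F' = F(Φ ^ (1 / n))` (since `k` contains the roots of unity of order `N`). By the formalism of
Artin `L(J / F_v, T)` is the product of `L(J / F, T)` and of the `L(J ⊗ ψ, T)` for the nontrivial
characters `ψ` of the Galois group of `F_v` over `F`. For such a `ψ` there are no invariants of the
inertia groups at the points of `B`, as the inertia group acts unipotently on the cohomology of `J`; so
`L(J ⊗ ψ, T)` is a polynomial (Grothendieck), which is the inverse of the product `charProduct`. If `χ`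
is a character of `k` of order `N` then `IsCoverPolynomial` holds for the covering of degree `N` and
`P_v = L(J / F_v, T) / L(J / F, T)`, and for the covering of degree `n` and
`P = L(J / F', T) / L(J / F, T)`.
-/

set_option autoImplicit false
set_option linter.all false
set_option maxHeartbeats 4000000

open Polynomial NumberField

namespace Pool.Agent.Results.MP_60d5ce_nt.KummerTowers

open Pool.Agent.TH639.SN (SpacePt normValue chart eulerProduct finite_le deg_pos chart_C_mul
  normValue_C_mul)

section defs

variable {k : Type} [Field k] {M s : ℕ}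

/-- The closed points of the subset `S` of projective space of dimension `M` over `k` where the forms
`G i` vanish. The coordinate of index `index` is one, the following coordinates are zero, and the
preceding ones are the coordinates of the closed point `point` of affine space. -/
structure Pt (G : Fin s → MvPolynomial (Fin (M + 1)) k) : Type where
  index : Fin (M + 1)
  point : SpacePt index k
  vanish : ∀ i, normValue index k (chart index (G i)) point = 0

variable {G : Fin s → MvPolynomial (Fin (M + 1)) k}

/-- The degree of a closed point. -/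
noncomputable def Pt.degree (z : Pt G) : ℕ := Pool.Agent.TH639.SN.deg z.index k z.point

/-- The norm to `k` of the value of the form `Φ` at a closed point. -/
noncomputable def Pt.value (z : Pt G) (Φ : MvPolynomial (Fin (M + 1)) k) : k :=
  normValue z.index k (chart z.index Φ) z.point

/-- The power series `P(a T ^ d)`. -/
noncomputable def factor {A : Type} [CommRing A] (P : ℤ[X]) (a : A) (d : ℕ) : PowerSeries A :=
  (((P.map (algebraMap ℤ A)).comp (C a * X ^ d) : A[X]) : PowerSeries A)

variable (L : Pt G → ℤ[X]) (Φ : MvPolynomial (Fin (M + 1)) k)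

/-- The product over all closed points of the `L_z(T ^ (deg z))`, the inverse of the `L`-function. -/
noncomputable def inverseLFunction : PowerSeries ℤ :=
  eulerProduct (fun z : Pt G => z.degree) (fun z => factor (L z) 1 z.degree)

/-- The product over the closed points `z` of the factors `L_z(ψ(N Φ(z)) T ^ (deg z))`, where
`N Φ(z)` is the norm to `k` of the value of `Φ` at `z`, and `ψ(0) = 0`. -/
noncomputable def charProduct {A : Type} [CommRing A] (ψ : MulChar k A) : PowerSeries A :=
  eulerProduct (fun z : Pt G => z.degree) (fun z => factor (L z) (ψ (z.value Φ)) z.degree)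

/-- `P` is the inverse of the product of the products `charProduct` for the characters `χ ^ j`,
`0 < j < N`. -/
def IsCoverPolynomial {A : Type} [CommRing A] (χ : MulChar k A) (N : ℕ) (P : ℤ[X]) : Prop :=
  (∏ j ∈ Finset.Ico 1 N, charProduct L Φ (χ ^ j)) *
    PowerSeries.map (algebraMap ℤ A) (P : PowerSeries ℤ) = 1

/-- The multiplicity of the zero one of the reduction of `P` modulo `ℓ`. -/
noncomputable def multOne (ℓ : ℕ) (P : ℤ[X]) : ℕ :=
  (P.map (Int.castRingHom (ZMod ℓ))).rootMultiplicity 1

/-- The order of the zero of `P` at `T = 1 / q`, where `q` is the number of elements of `k`: the order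
of vanishing at `s = 1` of the function `P(q ^ (-s))`. -/
noncomputable def order (k : Type) (P : ℤ[X]) : ℕ :=
  (P.map (Int.castRingHom ℚ)).rootMultiplicity (Nat.card k : ℚ)⁻¹

theorem finite_points [Finite k] (N : ℕ) : {z : Pt G | z.degree ≤ N}.Finite := by
  have h1 : (⋃ j : Fin (M + 1), (fun z : SpacePt j k => (⟨j, z⟩ : Σ j : Fin (M + 1), SpacePt j k)) ''
      {z : SpacePt j k | Pool.Agent.TH639.SN.deg j k z ≤ N}).Finite :=
    Set.finite_iUnion fun j => (finite_le j k N).image _
  refine Set.Finite.of_finite_image
    (f := fun z : Pt G => (⟨z.index, z.point⟩ : Σ j : Fin (M + 1), SpacePt j k))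
    (h1.subset ?_) ?_
  · rintro _ ⟨z, hz, rfl⟩
    simp only [Set.mem_iUnion]
    exact ⟨z.index, z.point, hz, rfl⟩
  · intro z _ z' _ h
    cases z
    cases z'
    simp only [Sigma.mk.injEq] at h
    obtain ⟨h1, h2⟩ := h
    subst h1
    rw [heq_iff_eq] at h2
    subst h2
    rfl

theorem degree_pos (z : Pt G) : 0 < z.degree := deg_pos z.index k z.point

theorem value_C_mul (z : Pt G) (e : k) :
    z.value (MvPolynomial.C e * Φ) = e ^ z.degree * z.value Φ := by
  show normValue z.index k (chart z.index (MvPolynomial.C e * Φ)) z.point = _
  rw [chart_C_mul, normValue_C_mul]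
  rfl

end defs

/-- **The Birch–Swinnerton-Dyer formula for Jacobians in the towers of Kummer extensions.**

Let `L(J / F, T) = R₁ / R₂`, where `R₂ = 1` if `J` has no constant part, and let

`μ = multOne ℓ R₁ + ∑_{z ∈ B} multOne ℓ (L_z(T ^ (deg z))) - multOne ℓ R₂ + multOne ℓ P`.

Since `ℓ` divides `q - 1` the first term is the multiplicity modulo `ℓ` of the central point `T = 1 / q`
as a zero of `R₁`, and the term for a place `z` of good reduction is zero if `ℓ` does not divide the
number of the points of the reduction over the residue field. The number `μ` does not depend on `a` and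
`v`. Theorem:

(1) the order of vanishing at `s = 1` of `L(J / F_v, s)` is at least that of `L(J / F', s)`, for all `v`;

(2) there are at most `(q - 1) μ (ℓ ^ a - 1) / ((ℓ - 1) ℓ ^ a)`, so less than `(q - 1) μ / (ℓ - 1)`,
exceptional `v` such that the two orders are equal for all the other `v`;

(3) the average over all `v` of the difference of the orders is at most `a (1 - 1 / ℓ) μ`.

Consequences. If the rank of `J` over `F'` is the order of vanishing, then for all but the exceptional
`v` in (2) it follows from Tate's inequality, rank `≤` order, that the rank of `J` over `F_v` is the order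
of vanishing of `L(J / F_v, s)`, and is equal to the rank over `F'`; by Kato and Trihan the
Tate–Shafarevich group of `J` over `F_v` is finite and the formula of Birch and Swinnerton-Dyer holds.
So `Q1` for the curve over `F'` (for `n = 1`: over `F`) implies `Q1` for its base change to `F_v`, for
all but a proportion of at most `μ / (ℓ - 1)` of the `v`, for all `a` such that `n ℓ ^ a` divides
`q - 1`. If `μ = 0` this is so for all `v` (and if `n = 1`, `R₂ = 1` all the ranks are zero). By (3) the
rank of `J` over `F_v` is on the average over `v` at most the order of `L(J / F', s)` at `s = 1` plus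
`a (1 - 1 / ℓ) μ`, while the degree of the `L`-function is a linear function of the degree `ℓ ^ a` of
`F_v` over `F'`: the average rank is bounded by the logarithm of the degree. -/
theorem result (ℓ a n : ℕ) (hℓ : ℓ.Prime) (ha : a ≠ 0) (hn0 : 0 < n) (hn : n.Coprime ℓ)
    (k : Type) [Field k] [Finite k] (K : Type) [Field K] [NumberField K] [IsGalois ℚ K]
    (χ : MulChar k (𝓞 K)) (hχ : orderOf χ = n * ℓ ^ a) (M s : ℕ)
    (G : Fin s → MvPolynomial (Fin (M + 1)) k) (Φ : MvPolynomial (Fin (M + 1)) k)
    (L : Pt G → ℤ[X]) (hL : ∀ z, (L z).coeff 0 = 1)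
    (B : Finset (Pt G)) (hB : ∀ z, z ∈ B ↔ z.value Φ = 0)
    (R₁ R₂ : ℤ[X]) (hR₁ : R₁.coeff 0 = 1) (hR₂ : R₂.coeff 0 = 1)
    (hR : inverseLFunction L * (R₁ : PowerSeries ℤ) = (R₂ : PowerSeries ℤ))
    (P : ℤ[X]) (hP : IsCoverPolynomial L Φ (χ ^ ℓ ^ a) n P)
    (hpoly : ∀ j ∈ Finset.Ico 1 (n * ℓ ^ a), ∃ Q : (𝓞 K)[X],
      charProduct L Φ (χ ^ j) * (Q : PowerSeries (𝓞 K)) = 1)
    (Pv : kˣ → ℤ[X]) (hPv : ∀ v : kˣ,
      IsCoverPolynomial L (MvPolynomial.C ((v : k) ^ n) * Φ) χ (n * ℓ ^ a) (Pv v))
    (μ : ℕ) (hμ : μ = multOne ℓ R₁ + ∑ z ∈ B, multOne ℓ ((L z).comp (X ^ z.degree)) -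
      multOne ℓ R₂ + multOne ℓ P) :
    (∀ v : kˣ, order k P ≤ order k (Pv v)) ∧
    (∃ T : Finset kˣ, ℓ ^ a * T.card ≤ (Nat.card k - 1) * ((∑ i ∈ Finset.range a, ℓ ^ i) * μ) ∧
      ∀ v ∉ T, order k (Pv v) = order k P) ∧
    ℓ * ∑ᶠ v : kˣ, (order k (Pv v) - order k P) ≤ (Nat.card k - 1) * (a * (ℓ - 1) * μ) := by
  have hord : ∀ Q : ℤ[X], order k Q = Pool.Agent.H313.CC.ordAt (Nat.card k) 1 Q := by
    intro Q
    unfold order Pool.Agent.H313.CC.ordAt
    rw [pow_one]
  have hP' : (∏ i ∈ Finset.Ico 1 n, Pool.Agent.H313.CC.cP
      (fun z : Pt G => z.degree) L (fun z => z.value Φ) (χ ^ (i * ℓ ^ a))) *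
      PowerSeries.map (algebraMap ℤ (𝓞 K)) (P : PowerSeries ℤ) = 1 := by
    rw [← hP]
    congr 1
    refine Finset.prod_congr rfl fun i _ => ?_
    rw [← pow_mul, mul_comm i]
    rfl
  have h := Pool.Agent.H313.CC.tower_curve hℓ ha hn0 hn K hχ
    (d := fun z : Pt G => z.degree) (Pl := L) (nv := fun z => z.value Φ)
    finite_points degree_pos hL B hB hR₁ hR₂ hR hP' hpoly 1
    (fun v z => z.value (MvPolynomial.C ((v : k) ^ n) * Φ))
    (fun v z => value_C_mul Φ z _) Pv hPv
  simp only [hord, hμ]
  exact h

end Pool.Agent.Results.MP_60d5ce_nt.KummerTowers
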